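import Pool.Agent.H97Z.JE.Defs

/-!
Termination of the polynomial exhaustion.
-/

open Polynomial

namespace Pool.Agent.H887Z.JE

open Pool.Agent.H97Z.JE

theorem cx_mono {n n' : ℕ} (h : n ≤ n') {L : List ℤ[X]} (hL : Cx n L) : Cx n' L := by
  induction h with
  | refl => exact hL
  | step _ ih => exact Or.inl ih

theorem natDegree_diff {D : ℕ} (h : ℤ) {b : ℤ[X]} (hb : b.natDegree = D + 1) :
    (taylor h b - b).natDegree ≤ D := by
  have hb0 : b ≠ 0 := by
    rintro rfl
    simp at hb
  by_cases h0 : taylor h b - b = 0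
  · rw [h0]
    simp
  · have h1 : (taylor h b - b).degree < (taylor h b).degree :=
      degree_sub_lt_left (degree_taylor b h) (by rwa [Ne, taylor_eq_zero]) (leadingCoeff_taylor h b)
    have h2 := natDegree_lt_natDegree h0 h1
    rw [natDegree_taylor] at h2
    omega

theorem mem_stepL {b : ℤ[X]} {h : ℕ} {L : List ℤ[X]} {s : ℤ[X]} (hs : s ∈ stepL b h L) :
    s = taylor (h : ℤ) b - b ∨ ∃ r ∈ L, 1 ≤ (r - b).natDegree ∧
      (s = taylor (h : ℤ) r ∨ s = r + (taylor (h : ℤ) b - b)) := by
  unfold stepL at hs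
  rcases List.mem_cons.mp hs with h1 | h1
  · exact Or.inl h1
  · obtain ⟨r, hr, h2⟩ := List.mem_flatMap.mp h1
    rw [List.mem_filter, decide_eq_true_eq] at hr
    refine Or.inr ⟨r, hr.1, hr.2, ?_⟩
    simpa using h2

theorem length_stepL (b : ℤ[X]) (h : ℕ) (L : List ℤ[X]) :
    (stepL b h L).length ≤ 2 * L.length + 1 := by
  unfold stepL
  rw [List.length_cons, List.length_flatMap]
  simp only [List.length_cons, List.length_nil, List.map_const', List.sum_replicate, smul_eq_mul]
  have := List.length_filter_le (fun r => decide (1 ≤ (r - b).natDegree)) L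
  omega

/-- the statement for given weights -/
def PW (D : ℕ) (w : Fin (D + 2) → ℕ) : Prop :=
  ∀ m : ℕ, ∃ n, ∀ (L : List ℤ[X]) (b : ℤ[X]) (S : Fin (D + 2) → Finset ℤ), L.length ≤ m →
    (∀ r ∈ L, r.natDegree ≤ D + 1) → b.natDegree ≤ D + 1 → (∀ e, (S e).card ≤ w e) →
    (∀ r ∈ L, r.natDegree = D + 1 → ∀ e : Fin (D + 2), (r - b).natDegree = e →
      (r - b).leadingCoeff ∈ S e) → Cx n L

theorem pw (D : ℕ) (hD : 1 ≤ D) (ih : ∀ m : ℕ, ∃ n, ∀ L : List ℤ[X], L.length ≤ m →
    (∀ r ∈ L, r.natDegree ≤ D) → Cx n L) (w : Fin (D + 2) → ℕ) : PW D w := by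
  classical
  have hwf : WellFounded (Pi.Lex (ι := Fin (D + 2)) (β := fun _ => ℕ) (· > ·) (· < ·)) :=
    Pi.Lex.wellFounded (· > ·) fun _ => wellFounded_lt
  induction w using hwf.induction with
  | _ w IH =>
  intro m
  let w' : Fin (D + 2) → Fin (D + 2) → ℕ := fun e0 e =>
    if e0 < e then w e else if e = e0 then w e0 - 1 else 2 * m + 1
  have hex : ∀ e0 : Fin (D + 2), ∃ n, 0 < w e0 → ∀ (L : List ℤ[X]) (b : ℤ[X])
      (S : Fin (D + 2) → Finset ℤ), L.length ≤ 2 * m + 1 →
      (∀ r ∈ L, r.natDegree ≤ D + 1) → b.natDegree ≤ D + 1 → (∀ e, (S e).card ≤ w' e0 e) →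
      (∀ r ∈ L, r.natDegree = D + 1 → ∀ e : Fin (D + 2), (r - b).natDegree = e →
        (r - b).leadingCoeff ∈ S e) → Cx n L := by
    intro e0
    by_cases h0 : 0 < w e0
    · obtain ⟨n, hn⟩ := IH (w' e0) ⟨e0, fun j hj => if_pos hj, by
        change (if e0 < e0 then w e0 else if e0 = e0 then w e0 - 1 else 2 * m + 1) < w e0
        rw [if_neg (lt_irrefl _), if_pos rfl]
        omega⟩ (2 * m + 1)
      exact ⟨n, fun _ => hn⟩
    · exact ⟨0, fun h => absurd h h0⟩
  choose n hn using hex
  obtain ⟨n0, hn0⟩ := ih m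
  refine ⟨n0 + Finset.univ.sup n + 1, fun L b S hlen hdeg hb hS hmem => ?_⟩
  by_cases hout : ∃ r ∈ L, r.natDegree = D + 1
  swap
  · push Not at hout
    refine cx_mono (by omega) (hn0 L hlen fun r hr => ?_)
    have h1 := hdeg r hr
    have h2 := hout r hr
    omega
  obtain ⟨b', hb', hmin⟩ := Finset.exists_min_image
    (L.toFinset.filter fun r => r.natDegree = D + 1) (fun r => (r - b).natDegree) (by
      obtain ⟨r, h1, h2⟩ := hout
      exact ⟨r, Finset.mem_filter.mpr ⟨List.mem_toFinset.mpr h1, h2⟩⟩)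
  rw [Finset.mem_filter, List.mem_toFinset] at hb'
  obtain ⟨hb'L, hb'd⟩ := hb'
  have he0 : (b' - b).natDegree < D + 2 := by
    have := natDegree_sub_le b' b
    omega
  let e0 : Fin (D + 2) := ⟨(b' - b).natDegree, he0⟩
  have hc : (b' - b).leadingCoeff ∈ S e0 := hmem b' hb'L hb'd e0 rfl
  have hpos : 0 < (S e0).card := Finset.card_pos.mpr ⟨_, hc⟩
  refine Or.inr ⟨b', hb'L, by omega, fun h => ?_⟩
  have hdiff := natDegree_diff (h : ℤ) hb'd
  have hlen' : (stepL b' h L).length ≤ 2 * m + 1 := by
    have := length_stepL b' h L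
    omega
  let S' : Fin (D + 2) → Finset ℤ := fun e =>
    if e0 < e then S e else if e = e0 then
      ((S e0).erase (b' - b).leadingCoeff).image (fun x => x - (b' - b).leadingCoeff)
    else ((stepL b' h L).map fun s => (s - taylor (h : ℤ) b').leadingCoeff).toFinset
  refine cx_mono (le_trans (Finset.le_sup (f := n) (Finset.mem_univ e0)) (by omega))
    (hn e0 (lt_of_lt_of_le hpos (hS e0)) _ (taylor (h : ℤ) b') S' hlen' ?_ ?_ ?_ ?_)
  · intro s hs
    rcases mem_stepL hs with rfl | ⟨r, hr, -, rfl | rfl⟩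
    · omega
    · rw [natDegree_taylor]
      exact hdeg r hr
    · have h1 := natDegree_add_le r (taylor (h : ℤ) b' - b')
      have h2 := hdeg r hr
      omega
  · rw [natDegree_taylor]
    omega
  · intro e
    change (if e0 < e then _ else if e = e0 then _ else _ : Finset ℤ).card ≤
      if e0 < e then w e else if e = e0 then w e0 - 1 else 2 * m + 1
    split_ifs
    · exact hS e
    · refine Finset.card_image_le.trans ?_
      rw [Finset.card_erase_of_mem hc]
      have := hS e0
      omega
    · refine (List.toFinset_card_le _).trans ?_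
      rw [List.length_map]
      exact hlen'
  · intro s hs hsd e he
    have key : ∃ r ∈ L, r.natDegree = D + 1 ∧ 1 ≤ (r - b').natDegree ∧
        (s - taylor (h : ℤ) b').natDegree = (r - b').natDegree ∧
        (s - taylor (h : ℤ) b').leadingCoeff = (r - b').leadingCoeff := by
      rcases mem_stepL hs with rfl | ⟨r, hr, h1, rfl | rfl⟩
      · omega
      · rw [natDegree_taylor] at hsd
        refine ⟨r, hr, hsd, h1, ?_, ?_⟩
        · rw [← map_sub, natDegree_taylor]
        · rw [← map_sub, leadingCoeff_taylor]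
      · have h2 : r + (taylor (h : ℤ) b' - b') - taylor (h : ℤ) b' = r - b' := by ring
        have h3 := natDegree_add_le r (taylor (h : ℤ) b' - b')
        have h4 := hdeg r hr
        refine ⟨r, hr, by omega, h1, by rw [h2], by rw [h2]⟩
    obtain ⟨r, hr, hrd, h1, h2, h3⟩ := key
    have h4 := hmin r (Finset.mem_filter.mpr ⟨List.mem_toFinset.mpr hr, hrd⟩)
    have h5 : r - b = (r - b') + (b' - b) := by ring
    change _ ∈ (if e0 < e then _ else if e = e0 then _ else _ : Finset ℤ)
    split_ifs with c1 c2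
    · have c1' : (b' - b).natDegree < (r - b').natDegree := by
        rw [← h2, he]
        exact c1
      have h6 : (r - b).natDegree = (r - b').natDegree := by
        rw [h5, natDegree_add_eq_left_of_natDegree_lt c1']
      have h7 : (r - b).leadingCoeff = (r - b').leadingCoeff := by
        rw [h5, leadingCoeff_add_of_degree_lt' (degree_lt_degree c1')]
      rw [h3, ← h7]
      exact hmem r hr hrd e (by rw [h6, ← h2, he])
    · have c2' : (r - b').natDegree = (b' - b).natDegree := by
        rw [← h2, he, c2]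
      have h6 : (r - b).natDegree = (b' - b).natDegree := by
        refine le_antisymm ?_ h4
        have h7 := natDegree_add_le (r - b') (b' - b)
        rw [← h5] at h7
        omega
      have h7 : (r - b).leadingCoeff = (r - b').leadingCoeff + (b' - b).leadingCoeff := by
        unfold leadingCoeff
        rw [h6, c2', h5, coeff_add]
      have h8 : (r - b').leadingCoeff ≠ 0 := by
        rw [Ne, leadingCoeff_eq_zero]
        intro h9
        rw [h9] at h1
        simp at h1
      rw [h3, Finset.mem_image]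
      refine ⟨(r - b).leadingCoeff, Finset.mem_erase.mpr ⟨?_, hmem r hr hrd e0 h6⟩, ?_⟩
      · rw [h7]
        intro h9
        apply h8
        linear_combination h9
      · rw [h7]
        ring
    · exact List.mem_toFinset.mpr (List.mem_map.mpr ⟨s, hs, rfl⟩)

theorem thm_cx : S_cx := by
  classical
  intro D
  induction D with
  | zero => exact fun m => ⟨0, fun L _ h r hr => (h r hr).trans (by omega)⟩
  | succ D ih =>
    intro m
    by_cases hD : 1 ≤ D
    · obtain ⟨n, hn⟩ := pw D hD ih (fun _ => m) m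
      refine ⟨n, fun L hL h => hn L 0 (fun _ => (L.map fun r => (r - 0).leadingCoeff).toFinset)
        hL h (by simp) (fun _ => ?_) fun r hr _ _ _ => ?_⟩
      · refine (List.toFinset_card_le _).trans ?_
        rw [List.length_map]
        exact hL
      · exact List.mem_toFinset.mpr (List.mem_map.mpr ⟨r, hr, rfl⟩)
    · exact ⟨0, fun L _ h r hr => (h r hr).trans (by omega)⟩

end Pool.Agent.H887Z.JE
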